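import Mathlib
import Pool.Agent.W369.GM.Defs

/-! GM-HOM: homogeneity of the midpoints. -/

set_option autoImplicit false

namespace Pool.Agent.W366.GM

open MeasureTheory Set Metric Filter Topology Pool.Agent.W369.GM
open scoped RealInnerProductSpace

namespace Hom

/-- a function with increments bounded by products of increments is constant -/
theorem const_of (F k : ℝ → ℝ) {a b : ℝ} (hab : a ≤ b)
    (h : ∀ s s', a ≤ s → s ≤ s' → s' ≤ b → |F s' - F s| ≤ (s' - s) * (k s - k s')) :
    F b = F a := by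
  have key : ∀ N : ℕ, 0 < N → |F b - F a| ≤ (b - a) / N * (k a - k b) := by
    intro N hN
    have hN' : (0 : ℝ) < N := by exact_mod_cast hN
    have hq : 0 ≤ (b - a) / N := div_nonneg (by linarith) hN'.le
    have ind : ∀ i : ℕ, i ≤ N → |F (a + i * ((b - a) / N)) - F a| ≤
        (b - a) / N * (k a - k (a + i * ((b - a) / N))) := by
      intro i
      induction i with
      | zero => intro _; simp
      | succ i ih =>
        intro hi
        have h1 := ih (by omega)
        have hi' : ((i + 1 : ℕ) : ℝ) ≤ N := by exact_mod_cast hi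
        have hN1 : (N : ℝ) * ((b - a) / N) = b - a := by field_simp
        have h4 : ((i + 1 : ℕ) : ℝ) * ((b - a) / N) ≤ (N : ℝ) * ((b - a) / N) :=
          mul_le_mul_of_nonneg_right hi' hq
        have h5 : 0 ≤ (i : ℝ) * ((b - a) / N) := by positivity
        have h2 := h (a + i * ((b - a) / N)) (a + (i + 1 : ℕ) * ((b - a) / N)) (by linarith)
          (by push_cast; linarith) (by linarith)
        have h3 : (a + (i + 1 : ℕ) * ((b - a) / N)) - (a + i * ((b - a) / N)) = (b - a) / N := by
          push_cast; ring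
        rw [h3] at h2
        calc |F (a + (i + 1 : ℕ) * ((b - a) / N)) - F a|
            ≤ |F (a + (i + 1 : ℕ) * ((b - a) / N)) - F (a + i * ((b - a) / N))| +
              |F (a + i * ((b - a) / N)) - F a| := abs_sub_le _ _ _
          _ ≤ _ := by linarith
    have h6 := ind N le_rfl
    have h7 : a + (N : ℝ) * ((b - a) / N) = b := by field_simp; ring
    rwa [h7] at h6
  by_contra hne
  have hpos : 0 < |F b - F a| := abs_pos.mpr (sub_ne_zero.mpr hne)
  obtain ⟨N, hN⟩ := exists_nat_gt ((b - a) * (k a - k b) / |F b - F a|)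
  have hN0 : (0 : ℝ) < (N + 1 : ℕ) := by positivity
  have h1 := key (N + 1) (Nat.succ_pos N)
  rw [div_lt_iff₀ hpos] at hN
  rw [div_mul_eq_mul_div, le_div_iff₀ hN0] at h1
  push_cast at h1
  nlinarith

end Hom

theorem hom (hLOC : S_LOC) : S_HOM := by
  intro d M D u hM hE hu x hx s hs0 hs1
  obtain ⟨hx0, c, hc1, t, ht⟩ := hx
  have hc0 : 0 < c := by linarith
  have h0M : (0 : E d) ∈ M := by
    obtain ⟨y, hy⟩ := hM.inter
    have h1 := interior_subset hy
    have h2 := hM.convex h1 (hM.symm y h1) (by norm_num : (0 : ℝ) ≤ 1 / 2)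
      (by norm_num : (0 : ℝ) ≤ 1 / 2) (by norm_num)
    simpa using h2
  have hInn : ∀ r : ℝ, 0 < r → r ≤ 1 → Inn u M (r • x) := by
    intro r hr0 hr1
    refine ⟨by rw [inner_smul_right, hx0, mul_zero], c / r, ?_, t, ?_⟩
    · rw [lt_div_iff₀ hr0]; linarith
    · rwa [smul_smul, div_mul_cancel₀ _ hr0.ne']
  have hne : ∀ r : ℝ, 0 < r → r ≤ 1 → (slice u M (r • x)).Nonempty := by
    intro r hr0 hr1
    refine ⟨r / c * t, ?_⟩
    have ht' : c • x + t • u ∈ M := by
      have h3 : c • x - ⟪u, c • x⟫ • u + t • u ∈ M := ht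
      rwa [inner_smul_right, hx0, mul_zero, zero_smul, sub_zero] at h3
    show r • x - ⟪u, r • x⟫ • u + (r / c * t) • u ∈ M
    rw [inner_smul_right, hx0, mul_zero, zero_smul, sub_zero]
    have h4 := hM.convex ht' h0M (by positivity : 0 ≤ r / c)
      (by rw [sub_nonneg, div_le_one hc0]; linarith : 0 ≤ 1 - r / c) (by ring)
    rw [smul_zero, add_zero, smul_add, smul_smul, smul_smul, div_mul_cancel₀ _ hc0.ne'] at h4
    exact h4
  -- the local data
  have hloc : ∀ r : ℝ, ∃ k : ℝ, 0 < r → r ≤ 1 → ∀ r' : ℝ, 0 < r' → r' ≤ 1 →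
      r' * |mid u M (r' • x) / r' - mid u M (r • x) / r| ≤
        hf u M (r • x) + (r' - r) * k - hf u M (r' • x) := by
    intro r
    by_cases hr : 0 < r ∧ r ≤ 1
    · obtain ⟨hr0, hr1⟩ := hr
      obtain ⟨α, ψ, χ, h1, h2⟩ := hLOC d M D u hM hE hu (r • x) (hInn r hr0 hr1)
      refine ⟨- χ x, fun _ _ r' hr0' hr1' => ?_⟩
      have h3 := h1 (r • x) (hInn r hr0 hr1).1 (hne r hr0 hr1)
      rw [h2] at h3
      have h4 : mid u M (r • x) - ψ (r • x) = 0 := abs_eq_zero.mp (le_antisymm h3 (abs_nonneg _))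
      rw [map_smul, smul_eq_mul] at h2 h4
      have h5 := h1 (r' • x) (hInn r' hr0' hr1').1 (hne r' hr0' hr1')
      rw [map_smul, map_smul, smul_eq_mul, smul_eq_mul] at h5
      have h6 : mid u M (r • x) / r = ψ x := by
        rw [div_eq_iff hr0.ne']; linarith
      rw [h6]
      have h7 : r' * |mid u M (r' • x) / r' - ψ x| = |mid u M (r' • x) - r' * ψ x| := by
        have h8 : r' * (mid u M (r' • x) / r' - ψ x) = mid u M (r' • x) - r' * ψ x := by
          rw [mul_sub, mul_div_cancel₀ _ hr0'.ne']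
        rw [← h8, abs_mul, abs_of_pos hr0']
      rw [h7]
      linarith
    · exact ⟨0, fun h1 h2 => absurd ⟨h1, h2⟩ hr⟩
  choose k hk using hloc
  set F : ℝ → ℝ := fun r => mid u M (r • x) / r with hF
  have hmain := Hom.const_of F (fun r => k r / (2 * s)) hs1 (by
    intro r r' hr hrr' hr'
    have hr0 : 0 < r := by linarith
    have hr0' : 0 < r' := by linarith
    have h1 := hk r hr0 (by linarith) r' hr0' hr'
    have h2 := hk r' hr0' hr' r hr0 (by linarith)
    rw [abs_sub_comm] at h2
    have h3 : (r + r') * |F r' - F r| ≤ (r' - r) * (k r - k r') := by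
      simp only [hF]
      nlinarith
    have h4 : (2 * s) * |F r' - F r| ≤ (r + r') * |F r' - F r| :=
      mul_le_mul_of_nonneg_right (by linarith) (abs_nonneg _)
    rw [← sub_div, ← mul_div_assoc, le_div_iff₀ (by positivity)]
    linarith)
  simp only [hF, one_smul, div_one] at hmain
  rw [hmain, mul_div_cancel₀ _ hs0.ne']

end Pool.Agent.W366.GM
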