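import Mathlib
import Pool.Agent.W369.GM.Defs

/-! GM-REF: affine reflection at points of differentiability. -/

set_option autoImplicit false

namespace Pool.Agent.W366.GM

open MeasureTheory Set Metric Filter Topology Pool.Agent.W369.GM
open scoped RealInnerProductSpace

namespace Ref

variable {d : ℕ} {M : Set (E d)}

theorem zero_int (hM : Body M) : M ∈ 𝓝 (0 : E d) := by
  obtain ⟨x, hx⟩ := hM.inter
  have hneg : -x ∈ interior M := by
    have h1 : (Homeomorph.neg (E d)) '' interior M ⊆ M := by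
      rintro _ ⟨y, hy, rfl⟩
      exact hM.symm y (interior_subset hy)
    have h2 : IsOpen ((Homeomorph.neg (E d)) '' interior M) :=
      (Homeomorph.neg (E d)).isOpenMap _ isOpen_interior
    exact interior_maximal h1 h2 ⟨x, hx, rfl⟩
  have h3 := hM.convex.interior hx hneg (by norm_num : (0 : ℝ) ≤ 1 / 2)
    (by norm_num : (0 : ℝ) ≤ 1 / 2) (by norm_num)
  have h4 : (1 / 2 : ℝ) • x + (1 / 2 : ℝ) • -x = 0 := by simp
  rw [h4] at h3
  exact mem_interior_iff_mem_nhds.mp h3

theorem mem_iff (hM : Body M) (x : E d) : x ∈ M ↔ gauge M x ≤ 1 := by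
  rw [gauge_le_one_iff_mem_closure hM.convex (zero_int hM), hM.compact.isClosed.closure_eq]

theorem g_add (hM : Body M) (x y : E d) : gauge M (x + y) ≤ gauge M x + gauge M y :=
  gauge_add_le hM.convex (absorbent_nhds_zero (zero_int hM)) x y

theorem g_smul {c : ℝ} (hc : 0 ≤ c) (x : E d) : gauge M (c • x) = c * gauge M x := by
  rw [gauge_smul_of_nonneg hc, smul_eq_mul]

theorem g_pos (hM : Body M) {x : E d} (hx : x ≠ 0) : 0 < gauge M x :=
  (gauge_pos (absorbent_nhds_zero (zero_int hM))
    (NormedSpace.isVonNBounded_iff ℝ |>.mpr hM.compact.isBounded)).mpr hx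

/-- derivative along lines -/
theorem line_deriv {u : E d} (h : DifferentiableAt ℝ (gauge M) u) (v : E d) :
    HasDerivAt (fun s : ℝ => gauge M (u + s • v)) (fderiv ℝ (gauge M) u v) 0 := by
  have h1 : HasDerivAt (fun s : ℝ => u + s • v) v 0 := by
    have := ((hasDerivAt_id (0 : ℝ)).smul_const v).const_add u
    simpa using this
  have h2 : HasFDerivAt (gauge M) (fderiv ℝ (gauge M) u) ((fun s : ℝ => u + s • v) 0) := by
    simpa using h.hasFDerivAt
  exact HasFDerivAt.comp_hasDerivAt 0 h2 h1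

theorem L_le (hM : Body M) {u : E d} (h : DifferentiableAt ℝ (gauge M) u) (w : E d) :
    fderiv ℝ (gauge M) u w ≤ gauge M w := by
  have h1 := (line_deriv h w).tendsto_slope_zero_right
  refine le_of_tendsto h1 ?_
  filter_upwards [self_mem_nhdsWithin] with s hs
  have hs0 : (0 : ℝ) < s := hs
  rw [zero_add, zero_smul, add_zero, smul_eq_mul, inv_mul_le_iff₀ hs0]
  have h2 := g_add hM u (s • w)
  rw [g_smul hs0.le] at h2
  linarith

theorem L_self {u : E d} (h : DifferentiableAt ℝ (gauge M) u) :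
    fderiv ℝ (gauge M) u u = gauge M u := by
  have h1 := line_deriv h u
  have h2 : HasDerivAt (fun s : ℝ => (1 + s) * gauge M u) (gauge M u) 0 := by
    have := ((hasDerivAt_id (0 : ℝ)).const_add 1).mul_const (gauge M u)
    simpa using this
  have h3 : (fun s : ℝ => gauge M (u + s • u)) =ᶠ[𝓝 0] fun s : ℝ => (1 + s) * gauge M u := by
    have : Ioi (-1 : ℝ) ∈ 𝓝 (0 : ℝ) := Ioi_mem_nhds (by norm_num)
    filter_upwards [this] with s hs
    have hs' : (-1 : ℝ) < s := hs
    have h4 : u + s • u = (1 + s) • u := by rw [add_smul, one_smul]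
    rw [h4, g_smul (by linarith)]
  exact h1.unique (h2.congr_of_eventuallyEq h3)

/-- points slightly below the tangent plane are in `M` -/
theorem below {u : E d} (hu : 0 < gauge M u) (h : DifferentiableAt ℝ (gauge M) u) (v : E d)
    (hv : fderiv ℝ (gauge M) u v < 0) :
    ∀ᶠ s in 𝓝[>] (0 : ℝ), gauge M ((gauge M u)⁻¹ • u + s • v) ≤ 1 := by
  set c := (gauge M u)⁻¹ with hc
  have hc0 : 0 < c := inv_pos.mpr hu
  have h1 := (line_deriv h ((gauge M u) • v)).tendsto_slope_zero_right
  have h2 : fderiv ℝ (gauge M) u (gauge M u • v) < 0 := by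
    rw [map_smul, smul_eq_mul]
    exact mul_neg_of_pos_of_neg hu hv
  have h3 := h1.eventually_lt_const h2
  filter_upwards [h3, self_mem_nhdsWithin] with s hs hs0
  have hs0' : (0 : ℝ) < s := hs0
  rw [zero_add, zero_smul, add_zero, smul_eq_mul] at hs
  have h4 : gauge M (u + s • gauge M u • v) < gauge M u := by
    by_contra hcon
    push Not at hcon
    have : 0 ≤ s⁻¹ * (gauge M (u + s • gauge M u • v) - gauge M u) :=
      mul_nonneg (inv_nonneg.mpr hs0'.le) (by linarith)
    linarith
  have h5 : c • u + s • v = c • (u + s • gauge M u • v) := by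
    rw [smul_add, smul_smul c s, smul_smul, mul_assoc, mul_comm s, ← mul_assoc]
    rw [hc, inv_mul_cancel₀ hu.ne', one_mul]
  rw [h5, g_smul hc0.le]
  calc c * gauge M (u + s • gauge M u • v) ≤ c * gauge M u :=
        mul_le_mul_of_nonneg_left h4.le hc0.le
    _ = 1 := inv_mul_cancel₀ hu.ne'

section slices

variable {e : E d}

theorem mem_slice {y : E d} (hy : ⟪e, y⟫ = 0) (t : ℝ) : t ∈ slice e M y ↔ y + t • e ∈ M := by
  rw [slice, mem_ofPred_eq, hy, zero_smul, sub_zero]

theorem slice_compact (hM : Body M) (he : ‖e‖ = 1) (y : E d) : IsCompact (slice e M y) := by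
  have hcont : Continuous fun t : ℝ => y - ⟪e, y⟫ • e + t • e := by fun_prop
  have hcl : IsClosed (slice e M y) := hM.compact.isClosed.preimage hcont
  obtain ⟨R, hR⟩ := hM.compact.isBounded.subset_closedBall (0 : E d)
  refine (isCompact_closedBall (0 : ℝ) (R + ‖y - ⟪e, y⟫ • e‖)).of_isClosed_subset hcl ?_
  intro t ht
  have h1 := hR ht
  rw [mem_closedBall_zero_iff] at h1 ⊢
  have h2 : t • e = (y - ⟪e, y⟫ • e + t • e) - (y - ⟪e, y⟫ • e) := by abel
  have h3 : ‖t • e‖ ≤ R + ‖y - ⟪e, y⟫ • e‖ := by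
    rw [h2]
    exact (norm_sub_le _ _).trans (by linarith)
  rwa [norm_smul, he, mul_one] at h3

theorem slice_convex (hM : Body M) (y : E d) : Convex ℝ (slice e M y) := by
  intro s hs t ht a b ha hb hab
  have h1 := hM.convex hs ht ha hb hab
  have h2 : a • (y - ⟪e, y⟫ • e + s • e) + b • (y - ⟪e, y⟫ • e + t • e) =
      y - ⟪e, y⟫ • e + (a • s + b • t) • e := by
    have : a • (y - ⟪e, y⟫ • e + s • e) + b • (y - ⟪e, y⟫ • e + t • e) =
        (a + b) • (y - ⟪e, y⟫ • e) + (a • s + b • t) • e := by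
      simp only [smul_eq_mul]
      module
    rw [this, hab, one_smul]
  rw [h2] at h1
  exact h1

end slices

end Ref

open Ref in
theorem ref (hHOM : S_HOM) : S_REF := by
  intro d M D u hM hE hu hdiff
  have hu0 : 0 < ‖u‖ := norm_pos_iff.mpr hu
  set g := gauge M with hg
  set L := fderiv ℝ g u with hL
  have hgu : 0 < g u := g_pos hM hu
  have hLu : L u = g u := L_self hdiff
  have hLle : ∀ w, L w ≤ g w := L_le hM hdiff
  set e : E d := ‖u‖⁻¹ • u with he
  have he1 : ‖e‖ = 1 := by
    rw [he, norm_smul, norm_inv, norm_norm, inv_mul_cancel₀ hu0.ne']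
  have hue : u = ‖u‖ • e := by
    rw [he, smul_smul, mul_inv_cancel₀ hu0.ne', one_smul]
  set g0 : ℝ := ‖u‖⁻¹ * g u with hg0
  have hg0p : 0 < g0 := by positivity
  have hLe : L e = g0 := by rw [he, map_smul, hLu, smul_eq_mul]
  have hp : (g u)⁻¹ • u = g0⁻¹ • e := by
    rw [he, hg0, smul_smul, mul_inv, inv_inv]
    congr 1
    field_simp
  -- elements of slices near the tangent plane
  have hbel : ∀ (y : E d) (ε : ℝ), 0 < ε → ∀ᶠ s in 𝓝[>] (0 : ℝ),
      s • y + (g0⁻¹ - s * (L y / g0 + ε)) • e ∈ M := by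
    intro y ε hε
    have h1 : L (y - (L y / g0 + ε) • e) < 0 := by
      rw [map_sub, map_smul, hLe, smul_eq_mul]
      have : (L y / g0 + ε) * g0 = L y + ε * g0 := by field_simp
      rw [this]
      have : 0 < ε * g0 := by positivity
      linarith
    filter_upwards [below hgu hdiff _ h1] with s hs
    rw [mem_iff hM]
    have h2 : (g u)⁻¹ • u + s • (y - (L y / g0 + ε) • e) =
        s • y + (g0⁻¹ - s * (L y / g0 + ε)) • e := by
      rw [hp]; module
    rw [← h2]
    exact hs
  -- bounds of the elements of slices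
  have hub : ∀ (y : E d) (t : ℝ), y + t • e ∈ M → t ≤ g0⁻¹ - L y / g0 := by
    intro y t ht
    rw [mem_iff hM] at ht
    have h1 := (hLle (y + t • e)).trans ht
    rw [map_add, map_smul, hLe, smul_eq_mul] at h1
    have h2 : g0⁻¹ - L y / g0 = (1 - L y) / g0 := by ring
    rw [h2, le_div_iff₀ hg0p]
    linarith
  have hlb : ∀ (y : E d) (t : ℝ), y + t • e ∈ M → -(g0⁻¹ + L y / g0) ≤ t := by
    intro y t ht
    have h1 : -y + (-t) • e ∈ M := by
      have := hM.symm _ ht
      rwa [neg_add, ← neg_smul] at this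
    have h2 := hub (-y) (-t) h1
    rw [map_neg, neg_div] at h2
    linarith
  -- the midpoints
  have hmid : ∀ y : E d, Inn e M y → mid e M y = -(L y / g0) := by
    intro y hy
    have hy0 : ⟪e, y⟫ = 0 := hy.1
    have hsy0 : ∀ s : ℝ, ⟪e, s • y⟫ = 0 := fun s => by rw [inner_smul_right, hy0, mul_zero]
    have hev1 : ∀ᶠ s in 𝓝[>] (0 : ℝ), s ≤ 1 := by
      have : Iic (1 : ℝ) ∈ 𝓝[>] (0 : ℝ) :=
        mem_nhdsWithin_of_mem_nhds (Iic_mem_nhds (by norm_num))
      exact this
    have key : ∀ ε : ℝ, 0 < ε → |mid e M y + L y / g0| ≤ ε := by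
      intro ε hε
      have hev := (hbel y ε hε).and ((hbel (-y) ε hε).and (hev1.and self_mem_nhdsWithin))
      obtain ⟨s, hs1, hs2, hs3, hs4⟩ := hev.exists
      have hs0 : (0 : ℝ) < s := hs4
      have hslm : ∀ t, t ∈ slice e M (s • y) ↔ s • y + t • e ∈ M :=
        fun t => mem_slice (hsy0 s) t
      have hcpt := slice_compact hM he1 (s • y)
      have hm1 : g0⁻¹ - s * (L y / g0 + ε) ∈ slice e M (s • y) := (hslm _).mpr hs1
      have hm2 : -(g0⁻¹ - s * (L (-y) / g0 + ε)) ∈ slice e M (s • y) := by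
        rw [hslm]
        have h1 := hM.symm _ hs2
        have h2 : -(s • -y + (g0⁻¹ - s * (L (-y) / g0 + ε)) • e) =
          s • y + (-(g0⁻¹ - s * (L (-y) / g0 + ε))) • e := by module
        rwa [h2] at h1
      rw [map_neg] at hm2
      have ht1 : g0⁻¹ - s * (L y / g0 + ε) ≤ top e M (s • y) := le_csSup hcpt.bddAbove hm1
      have ht2 : top e M (s • y) ≤ g0⁻¹ - L (s • y) / g0 :=
        csSup_le ⟨_, hm1⟩ fun t ht => hub _ _ ((hslm t).mp ht)
      have hb1 : bot e M (s • y) ≤ -(g0⁻¹ - s * (-L y / g0 + ε)) := csInf_le hcpt.bddBelow hm2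
      have hb2 : -(g0⁻¹ + L (s • y) / g0) ≤ bot e M (s • y) :=
        le_csInf ⟨_, hm1⟩ fun t ht => hlb _ _ ((hslm t).mp ht)
      have hh := hHOM d M D e hM hE he1 y hy s hs0 hs3
      rw [mid] at hh
      rw [map_smul, smul_eq_mul] at ht2 hb2
      have e1 : s * L y / g0 = s * (L y / g0) := by ring
      have e2 : -L y / g0 = -(L y / g0) := by ring
      rw [e1] at ht2 hb2
      rw [e2] at hb1
      rw [abs_le]
      have h3 : s * (-ε) ≤ s * (mid e M y + L y / g0) := by
        rw [mul_add, ← hh]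
        nlinarith
      have h4 : s * (mid e M y + L y / g0) ≤ s * ε := by
        rw [mul_add, ← hh]
        nlinarith
      exact ⟨le_of_mul_le_mul_left h3 hs0, le_of_mul_le_mul_left h4 hs0⟩
    have h0 : |mid e M y + L y / g0| ≤ 0 := le_of_forall_pos_le_add fun ε hε => by
      rw [zero_add]; exact key ε hε
    have h1 : mid e M y + L y / g0 = 0 := abs_eq_zero.mp (le_antisymm h0 (abs_nonneg _))
    linarith
  -- the reflection
  refine ⟨hu, (g u)⁻¹ • (L : E d →ₗ[ℝ] ℝ), ?_, ?_⟩
  · show (g u)⁻¹ * L u = 1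
    rw [hLu, inv_mul_cancel₀ hgu.ne']
  · intro z hz
    show z - (2 * ((g u)⁻¹ * L z)) • u ∈ M
    have hs : ∀ s : ℝ, 0 < s → s < 1 → s • z - (2 * ((g u)⁻¹ * L (s • z))) • u ∈ M := by
      intro s hs0 hs1
      set t : ℝ := ⟪e, s • z⟫ with ht
      set y : E d := s • z - t • e with hy
      have hee : ⟪e, e⟫ = (1 : ℝ) := by rw [real_inner_self_eq_norm_sq, he1]; norm_num
      have hy0 : ⟪e, y⟫ = 0 := by
        have hte : ⟪e, t • e⟫ = t := by rw [inner_smul_right, hee, mul_one]
        rw [hy, inner_sub_right, hte, ← ht, sub_self]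
      have hInn : Inn e M y := by
        refine ⟨hy0, s⁻¹, ?_, ⟨s⁻¹ * t, ?_⟩⟩
        · exact (one_lt_inv₀ hs0).mpr hs1
        · rw [mem_slice (by rw [inner_smul_right, hy0, mul_zero])]
          have : s⁻¹ • y + (s⁻¹ * t) • e = z := by
            rw [hy, smul_sub, smul_smul, smul_smul, inv_mul_cancel₀ hs0.ne', one_smul]
            abel
          rwa [this]
      have hsz : s • z ∈ M := by
        have h1 := hM.convex hz (mem_of_mem_nhds (zero_int hM)) hs0.le (by linarith : 0 ≤ 1 - s)
          (by ring)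
        rwa [smul_zero, add_zero] at h1
      have htm : t ∈ slice e M y := by
        rw [mem_slice hy0]
        have : y + t • e = s • z := by rw [hy]; abel
        rwa [this]
      have hcpt := slice_compact hM he1 y
      have hcv := slice_convex (e := e) hM y
      have htop : top e M y ∈ slice e M y := hcpt.sSup_mem ⟨t, htm⟩
      have hbot : bot e M y ∈ slice e M y := hcpt.sInf_mem ⟨t, htm⟩
      have h1 : t ≤ top e M y := le_csSup hcpt.bddAbove htm
      have h2 : bot e M y ≤ t := csInf_le hcpt.bddBelow htm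
      have h3 : 2 * mid e M y - t ∈ slice e M y := by
        apply hcv.ordConnected.out hbot htop
        rw [mid]
        constructor <;> linarith
      rw [mem_slice hy0, hmid y hInn] at h3
      have h4 : y + (2 * -(L y / g0) - t) • e = s • z - (2 * ((g u)⁻¹ * L (s • z))) • u := by
        have h5 : L (s • z) = L y + t * g0 := by
          have : s • z = y + t • e := by rw [hy]; abel
          rw [this, map_add, map_smul, hLe, smul_eq_mul]
        rw [h5, hy]
        nth_rewrite 2 [hue]
        have h6 : (2 * ((g u)⁻¹ * (L y + t * g0))) • ‖u‖ • e = (2 * (L y / g0 + t)) • e := by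
          rw [smul_smul]
          congr 1
          rw [hg0]
          field_simp
        rw [h6]
        module
      rw [h4] at h3
      exact h3
    have hcont : Continuous fun s : ℝ => s • z - (2 * ((g u)⁻¹ * L (s • z))) • u := by
      have : Continuous fun s : ℝ => L (s • z) := L.continuous.comp (by fun_prop)
      fun_prop
    have hlim : Tendsto (fun s : ℝ => s • z - (2 * ((g u)⁻¹ * L (s • z))) • u) (𝓝[<] 1)
        (𝓝 (z - (2 * ((g u)⁻¹ * L z)) • u)) := by
      have := hcont.tendsto 1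
      rw [one_smul] at this
      exact this.mono_left nhdsWithin_le_nhds
    refine hM.compact.isClosed.mem_of_tendsto hlim ?_
    have : Ioo (0 : ℝ) 1 ∈ 𝓝[<] (1 : ℝ) := Ioo_mem_nhdsLT (by norm_num)
    filter_upwards [this] with s hs'
    exact hs s hs'.1 hs'.2

end Pool.Agent.W366.GM
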