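import Pool.Agent.W477.GM.Stms

set_option maxHeartbeats 1000000
set_option autoImplicit false

/-!
Project GM, part KAP: the cardinals of the levels.
-/

namespace Pool.Agent.W477.GM.KapH366

open Pool.Agent.W477.GM Cardinal Ordinal

theorem exists_toType {b o : Ordinal.{0}} (h : o < b) :
    ∃ t : b.ToType, ((ToType.mk.symm t : Set.Iio b) : Ordinal.{0}) = o := by
  refine ⟨ToType.mk ⟨o, h⟩, ?_⟩
  rw [OrderIso.symm_apply_apply]

/-- the code of a condition -/
noncomputable def code {C : Type} {L : C → ℕ∞} (b l : Ordinal.{0}) (p : Cn C L) :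
    C × Set (b.ToType × ℕ × Bool × l.ToType × Bool) :=
  (p.c, {x | (x.2.2.2.2 = true ∧ p.bit (((ToType.mk.symm x.1 : Set.Iio b) : Ordinal.{0}),
      x.2.1, x.2.2.1) ((ToType.mk.symm x.2.2.2.1 : Set.Iio l) : Ordinal.{0}) = true) ∨
    (x.2.2.2.2 = false ∧ ((ToType.mk.symm x.2.2.2.1 : Set.Iio l) : Ordinal.{0}) <
      p.len (((ToType.mk.symm x.1 : Set.Iio b) : Ordinal.{0}), x.2.1, x.2.2.1))})

theorem code_inj {C : Type} {L : C → ℕ∞} (b l : Ordinal.{0})
    (hl : ∀ j : J, j.1 < b → (kap j.1).ord ≤ l) (p q : Cn C L)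
    (hp : rs (fun j => j.1 < b) p = p) (hq : rs (fun j => j.1 < b) q = q)
    (h : code b l p = code b l q) : p = q := by
  have hp0 : ∀ j : J, ¬ j.1 < b → p.len j = 0 := by
    intro j hj
    rw [← hp]
    simp [rs, hj]
  have hq0 : ∀ j : J, ¬ j.1 < b → q.len j = 0 := by
    intro j hj
    rw [← hq]
    simp [rs, hj]
  have h1 : p.c = q.c := congrArg Prod.fst h
  have h2 := congrArg Prod.snd h
  have hbit : ∀ j : J, j.1 < b → ∀ o, o < l → (p.bit j o = true ↔ q.bit j o = true) := by
    rintro ⟨β, n, s⟩ hj o ho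
    obtain ⟨t, ht⟩ := exists_toType (show β < b from hj)
    obtain ⟨u, hu⟩ := exists_toType ho
    have h3 := Set.ext_iff.1 h2 (t, n, s, u, true)
    simp only [code, Set.mem_ofPred_eq, ht, hu] at h3
    simpa using h3
  have hlen : ∀ j : J, j.1 < b → ∀ o, o < l → (o < p.len j ↔ o < q.len j) := by
    rintro ⟨β, n, s⟩ hj o ho
    obtain ⟨t, ht⟩ := exists_toType (show β < b from hj)
    obtain ⟨u, hu⟩ := exists_toType ho
    have h3 := Set.ext_iff.1 h2 (t, n, s, u, false)
    simp only [code, Set.mem_ofPred_eq, ht, hu] at h3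
    simpa using h3
  have hlp : ∀ (r : Cn C L) (j : J), j.1 < b → r.len j < l := fun r j hj =>
    lt_of_lt_of_le (r.lt j) (hl j hj)
  have h3 : ∀ j, p.len j = q.len j := by
    intro j
    by_cases hj : j.1 < b
    · rcases lt_trichotomy (p.len j) (q.len j) with h4 | h4 | h4
      · exact absurd ((hlen j hj _ (hlp p j hj)).2 h4) (lt_irrefl _)
      · exact h4
      · exact absurd ((hlen j hj _ (hlp q j hj)).1 h4) (lt_irrefl _)
    · rw [hp0 j hj, hq0 j hj]
  refine Cn.ext' h1 h3 ?_
  intro j o ho
  by_cases hj : j.1 < b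
  · exact Bool.eq_iff_iff.2 (hbit j hj o (ho.trans (hlp p j hj)))
  · rw [hp0 j hj] at ho
    exact absurd ho (not_lt.2 zero_le)

theorem kap_holds : P_KAP where
  reg β := isRegular_succ (aleph0_le_beth _)
  mono β γ h := by
    unfold kap
    exact Order.succ_le_succ (beth_le_beth.2 (mul_le_mul_right (add_le_add_left h 1) _))
  unb ι a := by
    refine ⟨max a (Cardinal.mk ι).ord, le_max_left _ _, ?_⟩
    unfold kap
    refine Order.lt_succ_of_le ((le_beth_ord _).trans (beth_le_beth.2 ?_))
    refine (le_max_right a (Cardinal.mk ι).ord).trans ?_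
    refine (Order.le_succ _).trans ?_
    exact Ordinal.le_mul_right _ omega0_pos
  stage C L hC b := by
    classical
    set lam : Cardinal.{0} := beth (omega0 * b + 1) with hlam
    have hlam0 : ℵ₀ ≤ lam := aleph0_le_beth _
    have hl : ∀ j : J, j.1 < b → (kap j.1).ord ≤ lam.ord := by
      intro j hj
      refine ord_le_ord.2 (Order.succ_le_of_lt (beth_lt_beth.2 ?_))
      refine lt_of_le_of_lt (mul_le_mul_right (Order.add_one_le_of_lt hj) omega0) ?_
      exact Order.lt_succ _
    refine ⟨C × Set (b.ToType × ℕ × Bool × lam.ord.ToType × Bool),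
      fun k => if h : ∃ p : Cn C L, rs (fun j => j.1 < b) p = p ∧ code b lam.ord p = k
        then h.choose else cz k.1, ?_, ?_⟩
    · intro p hp
      refine ⟨code b lam.ord p, ?_⟩
      have h : ∃ p' : Cn C L, rs (fun j => j.1 < b) p' = p' ∧
        code b lam.ord p' = code b lam.ord p := ⟨p, hp, rfl⟩
      simp only
      rw [dif_pos h]
      exact code_inj b lam.ord hl _ _ h.choose_spec.1 hp h.choose_spec.2
    · have hb : Cardinal.mk b.ToType ≤ lam := by
        rw [mk_toType]
        refine (card_le_beth b).trans (beth_le_beth.2 ?_)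
        refine le_trans ?_ (Order.le_succ _)
        exact Ordinal.le_mul_right _ omega0_pos
      have hT : Cardinal.mk lam.ord.ToType = lam := mk_ord_toType lam
      have h2 : (2 : Cardinal.{0}) ≤ lam := (natCast_lt_aleph0 (n := 2)).le.trans hlam0
      have hmul : ∀ x y : Cardinal.{0}, x ≤ lam → y ≤ lam → x * y ≤ lam := by
        intro x y hx hy
        calc x * y ≤ lam * lam := mul_le_mul' hx hy
          _ = lam := mul_eq_self hlam0
      have hX : Cardinal.mk (b.ToType × ℕ × Bool × lam.ord.ToType × Bool) ≤ lam := by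
        rw [mk_prod, mk_prod, mk_prod, mk_prod]
        simp only [Cardinal.lift_id, mk_bool, mk_nat, hT]
        exact hmul _ _ hb (hmul _ _ hlam0 (hmul _ _ h2 (hmul _ _ le_rfl h2)))
      have hpow : ℵ₀ ≤ 2 ^ lam := hlam0.trans (cantor lam).le
      have hK : Cardinal.mk (C × Set (b.ToType × ℕ × Bool × lam.ord.ToType × Bool)) ≤ 2 ^ lam := by
        rw [mk_prod]
        simp only [Cardinal.lift_id]
        calc Cardinal.mk C * Cardinal.mk (Set (b.ToType × ℕ × Bool × lam.ord.ToType × Bool))
            ≤ 2 ^ lam * 2 ^ lam := by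
              refine mul_le_mul' (mk_le_aleph0.trans hpow) ?_
              rw [mk_set]
              exact power_le_power_left two_ne_zero hX
          _ = 2 ^ lam := mul_eq_self hpow
      refine lt_of_le_of_lt hK ?_
      unfold kap
      refine Order.lt_succ_of_le ?_
      rw [hlam, ← beth_add_one]
      refine beth_le_beth.2 ?_
      have h3 : omega0 * (b + 1) = omega0 * b + omega0 := by rw [mul_add, mul_one]
      rw [h3, add_assoc]
      refine add_le_add_right ?_ _
      have h4 : (1 : Ordinal.{0}) + 1 = ((2 : ℕ) : Ordinal.{0}) := by norm_num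
      rw [h4]
      exact (natCast_lt_omega0 2).le

end Pool.Agent.W477.GM.KapH366
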